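import Pool.Agent.Lib.MP_343ccd_co.Main

/-!
# MP_343ccd_co: prism matroids of bipartite graphs and their relaxations are algebraic

For a bipartite graph `G` with at least two vertices and any `X` (in `H_G` or not) the rank 4 paving
matroid with the circuit-hyperplanes `H_G \ {X}` is algebraic over the algebraic closure of `F_p`,
for every odd prime `p`.

Idea.  A left vertex is represented by three linear forms in four indeterminates (with coefficients
in the algebraic closure of `F_p`), a right vertex by three additive polynomials; the parameter of a
left vertex `u` lies in the field with `q ^ (ell u)` elements, the parameter of a right vertex `v`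
is `β + Φ`, where `Φ` is the `q ^ (n v)`-Frobenius and `n v` is the product of the primes `ell u` of
the neighbours `u` of `v`.  A cross set of `u, v` is dependent iff a certain element of the field of
`u` is fixed by `Φ`, that is iff `u` and `v` are adjacent.  All other sets of four elements are
independent because their linear parts are.
-/

namespace Pool.Agent.Results.MP_343ccd_co.BipartiteAlgebraic

open Prism

theorem result {V : Type*} [Fintype V] [DecidableEq V] (hV : 2 ≤ Fintype.card V)
    (G : SimpleGraph V) (hG : G.Colorable 2) (p : ℕ) [Fact p.Prime] (hp : p ≠ 2)
    (X : Finset (V × Fin 3)) :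
    ∃ M : Matroid (V × Fin 3), IsPaving4 (fun S => PrismSet G S ∧ S ≠ X) M ∧
      AlgebraicOver M (AlgebraicClosure (ZMod p)) := by
  by_cases hX : PrismSet G X
  · exact main_relaxed p hp G hG X hX
  · obtain ⟨M, ⟨hM1, hM2⟩, hM3⟩ := main_full p hp hV G hG
    refine ⟨M, ⟨hM1, fun B => ?_⟩, hM3⟩
    rw [hM2 B]
    refine exists_congr fun S => and_congr_right fun _ => and_congr_right fun _ => ?_
    refine not_congr ⟨fun h => ⟨h, ?_⟩, fun h => h.1⟩
    rintro rfl
    exact hX h

end Pool.Agent.Results.MP_343ccd_co.BipartiteAlgebraic
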