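import Pool.Agent.Lib.MP_343ccd_co.NonRep
import Pool.Agent.Lib.MP_343ccd_co.SparsePaving

/-!
# MP_343ccd_co: triangle-free prism matroids that are not algebraic in characteristic zero

Let `G` be triangle-free and let `u 0, .., u 3`, `w 0, .., w 3` be vertices such that `u i` and
`w j` are adjacent for all `(i, j) ≠ (0, 0)`.  If `u 0` and `w 0` are not adjacent, or if `X` is one
of the three members of `H_G` on the edge `u 0, w 0`, then `M(G, X)` is not linear over any field
and not algebraic over any field of characteristic zero.  In particular this holds for every `X` in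
`H_G` if `G` is the complete bipartite graph `K_{m,n}`, `m, n ≥ 4`, which is triangle-free and
2-connected.

Proof: the lines through `(v, l)` and `(v, l')` form a sixteen point configuration, in which the
last incidence follows from the other fifteen; in characteristic zero algebraic independence is
linear independence of Kaehler differentials.
-/

namespace Pool.Agent.Results.MP_343ccd_co.CharacteristicZero

open Prism

universe u₁ u₂ u₃ u₄ u₅

/-- `M` has no linear representation over any (commutative) field -/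
def NotLinear {E : Type u₅} (M : Matroid E) : Prop :=
  ∀ (F : Type u₁) (W : Type u₂) [Field F] [AddCommGroup W] [Module F W] (φ : E → W),
    ¬ ∀ I : Set E, I ⊆ M.E → (M.Indep I ↔ LinearIndependent F (fun x : I => φ x))

/-- `M` is not algebraic over any field of characteristic zero -/
def NotAlgebraicCharZero {E : Type u₅} (M : Matroid E) : Prop :=
  ∀ (k : Type u₃) (K : Type u₄) [Field k] [CharZero k] [Field K] [Algebra k K] (σ : E → K),
    Function.Injective σ →
    ¬ ∀ I : Set E, I ⊆ M.E → (M.Indep I ↔ AlgebraicIndependent k (fun x : I => σ x))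

private theorem mem_crossing {V : Type*} [DecidableEq V] {a b c d : V} {l l' m m' : Fin 3}
    (h : ({(a, l), (b, l), (a, l'), (b, l')} : Finset (V × Fin 3)) =
      {(c, m), (d, m), (c, m'), (d, m')}) : (a = c ∨ a = d) ∧ (b = c ∨ b = d) := by
  have h1 : (a, l) ∈ ({(c, m), (d, m), (c, m'), (d, m')} : Finset (V × Fin 3)) := by
    rw [← h]; simp
  have h2 : (b, l) ∈ ({(c, m), (d, m), (c, m'), (d, m')} : Finset (V × Fin 3)) := by
    rw [← h]; simp
  simp only [Finset.mem_insert, Finset.mem_singleton, Prod.mk.injEq] at h1 h2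
  tauto

private theorem not_prism {V : Type*} [DecidableEq V] {G : SimpleGraph V} {a b : V} (hab : a ≠ b)
    (hG : ¬ G.Adj a b) (l l' : Fin 3) :
    ¬ PrismSet G ({(a, l), (b, l), (a, l'), (b, l')} : Finset (V × Fin 3)) := by
  rintro ⟨c, d, hcd, m, m', -, h⟩
  obtain ⟨h1, h2⟩ := mem_crossing h
  rcases h1 with rfl | rfl <;> rcases h2 with rfl | rfl
  · exact hab rfl
  · exact hG hcd
  · exact hG hcd.symm
  · exact hab rfl

/-- the sixteen point obstruction for sets of four elements -/
private theorem core {V : Type*} [DecidableEq V] (G : SimpleGraph V) (hG : G.CliqueFree 3)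
    (u w : Fin 4 → V) (hu : Function.Injective u) (hw : Function.Injective w)
    (hadj : ∀ i j, (i, j) ≠ (0, 0) → G.Adj (u i) (w j)) (X : Finset (V × Fin 3))
    (hX : ¬ G.Adj (u 0) (w 0) ∨ ∃ l l' : Fin 3, l ≠ l' ∧
      X = {(u 0, l), (w 0, l), (u 0, l'), (w 0, l')})
    {F W : Type*} [Field F] [AddCommGroup W] [Module F W] (φ : V × Fin 3 → W)
    (hφ : ∀ S : Finset (V × Fin 3), S.card = 4 →
      (LinearIndepOn F φ (↑S : Set (V × Fin 3)) ↔ ¬ (PrismSet G S ∧ S ≠ X))) : False := by
  have tri : ∀ a b c, G.Adj a b → G.Adj a c → G.Adj b c → False := by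
    intro a b c h1 h2 h3
    exact hG {a, b, c} (SimpleGraph.is3Clique_iff.mpr ⟨a, b, c, h1, h2, h3, rfl⟩)
  have huu : ∀ i j, i ≠ j → u i ≠ u j ∧ ¬ G.Adj (u i) (u j) := by
    intro i j hij
    refine ⟨fun h => hij (hu h), fun h => tri _ _ _ h (hadj i 1 (by simp)) (hadj j 1 (by simp))⟩
  have hww : ∀ i j, i ≠ j → w i ≠ w j ∧ ¬ G.Adj (w i) (w j) := by
    intro i j hij
    refine ⟨fun h => hij (hw h), fun h =>
      tri _ _ _ h (hadj 1 i (by simp)).symm (hadj 1 j (by simp)).symm⟩
  have h00 : u 0 ≠ w 0 := by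
    intro h
    have h1 := hadj 1 0 (by simp)
    rw [← h] at h1
    exact tri _ _ _ h1 (hadj 1 1 (by simp)) (hadj 0 1 (by simp))
  rcases hX with hX | ⟨l, l', hl, rfl⟩
  · -- choose letters avoiding `X`
    obtain ⟨l, l', hl, hav⟩ : ∃ l l' : Fin 3, l ≠ l' ∧ ∀ a b : V,
        ({(a, l), (b, l), (a, l'), (b, l')} : Finset (V × Fin 3)) ≠ X := by
      by_contra hcon
      push Not at hcon
      obtain ⟨a, b, h1⟩ := hcon 0 1 (by decide)
      obtain ⟨c, d, h2⟩ := hcon 0 2 (by decide)
      have h3 : (c, (2 : Fin 3)) ∈ X := by rw [← h2]; simp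
      rw [← h1] at h3
      simp at h3
    exact no_rep G X l l' hl φ hφ u w hadj (fun i j _ => hav _ _)
      (fun i j hij => ⟨(huu i j hij).1, not_prism (huu i j hij).1 (huu i j hij).2 l l'⟩)
      (fun i j hij => ⟨(hww i j hij).1, not_prism (hww i j hij).1 (hww i j hij).2 l l'⟩)
      ⟨h00, fun h => not_prism h00 hX l l' h.1⟩
  · refine no_rep G _ l l' hl φ hφ u w hadj (fun i j hij h => ?_)
      (fun i j hij => ⟨(huu i j hij).1, not_prism (huu i j hij).1 (huu i j hij).2 l l'⟩)
      (fun i j hij => ⟨(hww i j hij).1, not_prism (hww i j hij).1 (hww i j hij).2 l l'⟩)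
      ⟨h00, fun h => h.2 rfl⟩
    obtain ⟨h1, h2⟩ := mem_crossing h
    have hne := (hadj i j hij).ne
    by_cases hi : i = 0
    · subst hi
      have hj : j ≠ 0 := fun h => hij (by rw [h])
      rcases h2 with h2 | h2
      · exact hne h2.symm
      · exact (hww j 0 hj).1 h2
    · rcases h1 with h1 | h1
      · exact (huu i 0 hi).1 h1
      · rcases h2 with h2 | h2
        · by_cases hj : j = 0
          · subst hj; exact h00 h2.symm
          · have := hadj 0 j (by simp [hj])
            exact this.ne h2.symm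
        · exact hne (h1.trans h2.symm)

private theorem obstruction {V : Type u₅} [DecidableEq V] (G : SimpleGraph V)
    (hG : G.CliqueFree 3) (u w : Fin 4 → V) (hu : Function.Injective u)
    (hw : Function.Injective w) (hadj : ∀ i j, (i, j) ≠ (0, 0) → G.Adj (u i) (w j))
    (X : Finset (V × Fin 3)) (hX : ¬ G.Adj (u 0) (w 0) ∨ ∃ l l' : Fin 3, l ≠ l' ∧
      X = {(u 0, l), (w 0, l), (u 0, l'), (w 0, l')})
    (M : Matroid (V × Fin 3)) (hM : IsPaving4 (fun S => PrismSet G S ∧ S ≠ X) M) :
    NotLinear.{u₁, u₂} M ∧ NotAlgebraicCharZero.{u₃, u₄} M := by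
  have hE : ∀ I : Set (V × Fin 3), I ⊆ M.E := by
    intro I
    rw [hM.1]
    exact Set.subset_univ I
  constructor
  · intro F W _ _ _ φ h
    refine core G hG u w hu hw hadj X hX (F := F) φ fun S hS => ?_
    rw [← IsPaving4.indep_iff' hM hS]
    exact (h _ (hE _)).symm
  · intro k K _ _ _ _ σ _ h
    refine core G hG u w hu hw hadj X hX (F := K)
      (fun x => KaehlerDifferential.D k K (σ x)) fun S hS => ?_
    rw [← IsPaving4.indep_iff' hM hS, h _ (hE _)]
    exact (algInd_iff_linInd (k := k) (fun x : (↑S : Set (V × Fin 3)) => σ x)).symm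

private theorem connected_of {V : Type*} (G : SimpleGraph V) (p q : V) (hpq : G.Adj p q)
    (h : ∀ x, G.Adj x p ∨ G.Adj x q) : G.Connected := by
  rw [SimpleGraph.connected_iff_exists_forall_reachable]
  refine ⟨p, fun x => ?_⟩
  rcases h x with h | h
  · exact h.symm.reachable
  · exact hpq.reachable.trans h.symm.reachable

private theorem exists_inj {m : ℕ} (hm : 4 ≤ m) (a : Fin m) :
    ∃ f : Fin 4 → Fin m, Function.Injective f ∧ f 0 = a := by
  refine ⟨fun i => Equiv.swap (Fin.castLE hm 0) a (Fin.castLE hm i), fun i j hij => ?_, by simp⟩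
  exact Fin.castLE_injective hm ((Equiv.swap (Fin.castLE hm 0) a).injective hij)

private theorem bip_connected {m n : ℕ} (hm : 4 ≤ m) (hn : 4 ≤ n) :
    (completeBipartiteGraph (Fin m) (Fin n)).Connected := by
  refine connected_of _ (Sum.inl ⟨0, by omega⟩) (Sum.inr ⟨0, by omega⟩) (by simp) ?_
  rintro (x | x) <;> simp

private theorem bip_del_connected {m n : ℕ} (hm : 4 ≤ m) (hn : 4 ≤ n) (v : Fin m ⊕ Fin n) :
    ((completeBipartiteGraph (Fin m) (Fin n)).induce {v}ᶜ).Connected := by
  obtain ⟨p, hp⟩ : ∃ p : Fin m, (Sum.inl p : Fin m ⊕ Fin n) ≠ v := by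
    by_contra hcon
    push Not at hcon
    have h1 := hcon ⟨0, by omega⟩
    have h2 := hcon ⟨1, by omega⟩
    rw [← h2] at h1
    simp at h1
  obtain ⟨q, hq⟩ : ∃ q : Fin n, (Sum.inr q : Fin m ⊕ Fin n) ≠ v := by
    by_contra hcon
    push Not at hcon
    have h1 := hcon ⟨0, by omega⟩
    have h2 := hcon ⟨1, by omega⟩
    rw [← h2] at h1
    simp at h1
  refine connected_of _ ⟨Sum.inl p, by simpa using hp⟩ ⟨Sum.inr q, by simpa using hq⟩
    (by simp) ?_
  rintro ⟨x | x, hx⟩ <;> simp

/-- Sixteen point obstruction in triangle-free prism matroids, and the complete bipartite graphs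
`K_{m,n}`, `m, n ≥ 4`. -/
theorem result :
    (∀ {V : Type u₅} [DecidableEq V] (G : SimpleGraph V), G.CliqueFree 3 →
      ∀ u w : Fin 4 → V, Function.Injective u → Function.Injective w →
      (∀ i j, (i, j) ≠ (0, 0) → G.Adj (u i) (w j)) →
      ∀ X : Finset (V × Fin 3), (¬ G.Adj (u 0) (w 0) ∨ ∃ l l' : Fin 3, l ≠ l' ∧
        X = {(u 0, l), (w 0, l), (u 0, l'), (w 0, l')}) →
      ∀ M : Matroid (V × Fin 3), IsPaving4 (fun S => PrismSet G S ∧ S ≠ X) M →
        NotLinear.{u₁, u₂} M ∧ NotAlgebraicCharZero.{u₃, u₄} M) ∧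
    (∀ m n : ℕ, 4 ≤ m → 4 ≤ n →
      (completeBipartiteGraph (Fin m) (Fin n)).CliqueFree 3 ∧
      (completeBipartiteGraph (Fin m) (Fin n)).Connected ∧
      (∀ v, ((completeBipartiteGraph (Fin m) (Fin n)).induce {v}ᶜ).Connected) ∧
      ∀ X, PrismSet (completeBipartiteGraph (Fin m) (Fin n)) X →
        (∃ M, IsPaving4 (fun S => PrismSet (completeBipartiteGraph (Fin m) (Fin n)) S ∧ S ≠ X)
          M) ∧
        ∀ M, IsPaving4 (fun S => PrismSet (completeBipartiteGraph (Fin m) (Fin n)) S ∧ S ≠ X) M →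
          NotLinear.{u₁, u₂} M ∧ NotAlgebraicCharZero.{u₃, u₄} M) := by
  refine ⟨fun G hG u w hu hw hadj X hX M hM => obstruction G hG u w hu hw hadj X hX M hM, ?_⟩
  intro m n hm hn
  have hfree : (completeBipartiteGraph (Fin m) (Fin n)).CliqueFree 3 := by
    have hcol : (completeBipartiteGraph (Fin m) (Fin n)).Colorable 2 :=
      ⟨SimpleGraph.Coloring.mk (fun x => Sum.elim (fun _ => (0 : Fin 2)) (fun _ => 1) x) (by
        rintro (a | a) (b | b) h <;> simp at h ⊢)⟩
    exact hcol.cliqueFree (by norm_num)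
  refine ⟨hfree, bip_connected hm hn, bip_del_connected hm hn, fun X hX => ?_⟩
  have hne : (Sum.inl ⟨0, by omega⟩ : Fin m ⊕ Fin n) ≠ Sum.inr ⟨0, by omega⟩ := by simp
  refine ⟨exists_paving _ X hne, ?_⟩
  obtain ⟨a, b, l, l', hl, rfl⟩ : ∃ (a : Fin m) (b : Fin n) (l l' : Fin 3), l ≠ l' ∧
      X = {(Sum.inl a, l), (Sum.inr b, l), (Sum.inl a, l'), (Sum.inr b, l')} := by
    obtain ⟨u, v, huv, l, l', hl, rfl⟩ := hX
    rcases u with a | a <;> rcases v with b | b
    · simp at huv
    · exact ⟨a, b, l, l', hl, rfl⟩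
    · refine ⟨b, a, l, l', hl, ?_⟩
      ext x
      simp only [Finset.mem_insert, Finset.mem_singleton]
      tauto
    · simp at huv
  obtain ⟨f, hf, hf0⟩ := exists_inj hm a
  obtain ⟨g, hg, hg0⟩ := exists_inj hn b
  intro M hM
  refine obstruction _ hfree (fun i => Sum.inl (f i)) (fun i => Sum.inr (g i))
    (Sum.inl_injective.comp hf) (Sum.inr_injective.comp hg) (fun i j _ => by simp) _
    (Or.inr ⟨l, l', hl, ?_⟩) M hM
  simp only [hf0, hg0]

end Pool.Agent.Results.MP_343ccd_co.CharacteristicZero
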