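import Pool.Agent.Lib.PrismTD.S12
import Pool.Agent.Lib.PrismTD.S13

/-!
# MP_343ccd_co: two-degenerate triangle-free graphs

Let `G` be a triangle-free graph in which every nonempty set `S` of vertices contains a vertex with
at most two neighbours in `S` (for example a cycle of length at least four, odd or even).  Then for
every `X` and every infinite field `K` the matroid `M(G, X)` is linear over `K` and algebraic over
`K`.

Proof: the vertices are added one by one.  The triple of a new vertex is in perspective with the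
triples of its (at most two, non-adjacent) old neighbours; such triples form a three-dimensional
rational family, and a generic member of it satisfies no other dependence.  A dropped set `X` is
obtained by moving one vector of the triple of the old neighbour along one of its two sides.
-/

namespace Pool.Agent.Results.MP_343ccd_co.TwoDegenerate

open Prism Prism.TD

private theorem third : ∀ l l' : Fin 3, l ≠ l' →
    ∃ i : Fin 3, (l = i + 1 ∧ l' = i + 2) ∨ (l = i + 2 ∧ l' = i + 1) := by decide

private theorem f3a : ∀ i : Fin 3, i + 1 ≠ i + 2 := by decide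

private theorem f3b : ∀ i j : Fin 3, (i + 1 = j + 1 ∨ i + 1 = j + 2) →
    (i + 2 = j + 1 ∨ i + 2 = j + 2) → i = j := by decide

private theorem mem_cross {V : Type*} [DecidableEq V] (u v : V) (i : Fin 3) (x : V × Fin 3) :
    x ∈ crossSet u v i ↔ (x = (u, i + 1) ∨ x = (u, i + 2) ∨ x = (v, i + 1) ∨ x = (v, i + 2)) := by
  simp only [crossSet, Finset.mem_insert, Finset.mem_singleton]

private theorem cross_symm {V : Type*} [DecidableEq V] (u v : V) (i : Fin 3) :
    crossSet u v i = crossSet v u i := by
  ext x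
  rw [mem_cross, mem_cross]
  tauto

private theorem cross_letter {V : Type*} [DecidableEq V] {u v : V} {i j : Fin 3}
    (h : crossSet u v i = crossSet u v j) : i = j := by
  have h1 : (u, i + 1) ∈ crossSet u v j := by
    rw [← h, mem_cross]
    exact Or.inl rfl
  have h2 : (u, i + 2) ∈ crossSet u v j := by
    rw [← h, mem_cross]
    exact Or.inr (Or.inl rfl)
  rw [mem_cross] at h1 h2
  simp only [Prod.mk.injEq] at h1 h2
  refine f3b i j ?_ ?_
  · tauto
  · tauto

private theorem hk_iff {V : Type*} [DecidableEq V] (G : SimpleGraph V) (X T : Finset (V × Fin 3)) :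
    HK (fun u v i => G.Adj u v ∧ crossSet u v i ≠ X) T ↔ (PrismSet G T ∧ T ≠ X) := by
  constructor
  · rintro ⟨u, v, i, ⟨huv, hX⟩, rfl⟩
    refine ⟨⟨u, v, huv, i + 1, i + 2, f3a i, ?_⟩, hX⟩
    ext x
    rw [mem_cross]
    simp only [Finset.mem_insert, Finset.mem_singleton]
    tauto
  · rintro ⟨⟨u, v, huv, l, l', hll, rfl⟩, hX⟩
    obtain ⟨i, hi⟩ := third l l' hll
    have hT : ({(u, l), (v, l), (u, l'), (v, l')} : Finset (V × Fin 3)) = crossSet u v i := by
      ext x
      rw [mem_cross]
      simp only [Finset.mem_insert, Finset.mem_singleton]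
      rcases hi with ⟨rfl, rfl⟩ | ⟨rfl, rfl⟩ <;> tauto
    rw [hT] at hX ⊢
    exact ⟨u, v, i, ⟨huv, hX⟩, rfl⟩

theorem result {V : Type*} [Fintype V] [DecidableEq V] (hV : 2 ≤ Fintype.card V)
    (G : SimpleGraph V) (hG : G.CliqueFree 3)
    (hdeg : ∀ S : Finset V, S.Nonempty → ∃ v ∈ S, {u | u ∈ S ∧ G.Adj u v}.ncard ≤ 2)
    (X : Finset (V × Fin 3)) (K : Type) [Field K] [Infinite K] :
    ∃ M : Matroid (V × Fin 3), IsPaving4 (fun S => PrismSet G S ∧ S ≠ X) M ∧
      AlgebraicOver M K ∧
      ∃ φ : V × Fin 3 → Fin 4 → K, ∀ I : Set (V × Fin 3), M.Indep I ↔ LinearIndepOn K φ I := by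
  classical
  have hV0 : (Finset.univ : Finset V).Nonempty := by
    rw [← Finset.card_pos, Finset.card_univ]
    omega
  obtain ⟨φ, hφ⟩ := exists_good (K := K) G hG (fun S hS => by
      obtain ⟨v, hv, h⟩ := hdeg S hS
      refine ⟨v, hv, ?_⟩
      have e : ({u | u ∈ S ∧ G.Adj u v} : Set V) = ↑({u ∈ S | G.Adj u v} : Finset V) := by
        ext u
        simp
      rw [e, Set.ncard_coe_finset] at h
      exact h)
    (fun u v i => G.Adj u v ∧ crossSet u v i ≠ X) (fun u v i h => h.1)
    (fun u v i h => ⟨h.1.symm, by rw [cross_symm]; exact h.2⟩)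
    (fun u v i j h hij => by
      by_cases h1 : crossSet u v i = X
      · right
        refine ⟨h, fun h2 => hij (cross_letter (u := u) (v := v) (h1.trans h2.symm))⟩
      · exact Or.inl ⟨h, h1⟩)
    Finset.univ hV0
  obtain ⟨M, hM, hA, hI⟩ := final (fun S => PrismSet G S ∧ S ≠ X) (fun T hT => by
      obtain ⟨S, hTS, hS4, hSH⟩ := exists_good4 G hV T hT
      exact ⟨S, hTS, hS4, fun h => hSH h.1⟩) φ (fun S hS => by
      rw [hφ.1 S (fun x _ => Finset.mem_univ _) hS, hk_iff])
  exact ⟨M, hM, hA, φ, hI⟩

end Pool.Agent.Results.MP_343ccd_co.TwoDegenerate
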